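import Pool.Agent.H70SH.Lat

/-!
The lattices of a direction are balanced infinitely often.
-/

set_option autoImplicit false

namespace Pool.Agent.H70SH

/-- the exponent of `p` at the height `exp (θ)` -/
noncomputable def ex (p : ℕ) (θ : ℝ) : ℕ := ⌊θ / Real.log p⌋₊

theorem pow_ex_le {p : ℕ} (hp : 2 ≤ p) {θ : ℝ} (hθ : 0 ≤ θ) :
    ((p ^ ex p θ : ℕ) : ℝ) ≤ Real.exp θ := by
  have hp1 : (1 : ℝ) < p := by exact_mod_cast hp
  have hlog : 0 < Real.log p := Real.log_pos hp1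
  have h1 := Nat.floor_le (show 0 ≤ θ / Real.log p by positivity)
  have h2 : (ex p θ : ℝ) * Real.log p ≤ θ := by
    rw [← le_div_iff₀ hlog]; exact h1
  push_cast
  rw [← Real.exp_log (show (0 : ℝ) < p by linarith), ← Real.exp_nat_mul]
  exact Real.exp_le_exp.2 (by simpa using h2)

theorem lt_pow_ex {p : ℕ} (hp : 2 ≤ p) {θ : ℝ} :
    Real.exp θ < p * ((p ^ ex p θ : ℕ) : ℝ) := by
  have hp1 : (1 : ℝ) < p := by exact_mod_cast hp
  have hlog : 0 < Real.log p := Real.log_pos hp1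
  have h1 := Nat.lt_floor_add_one (θ / Real.log p)
  have h2 : θ < ((ex p θ : ℝ) + 1) * Real.log p := by
    rw [← div_lt_iff₀ hlog]; exact h1
  have h3 : (p : ℝ) * ((p ^ ex p θ : ℕ) : ℝ) = (p : ℝ) ^ (ex p θ + 1) := by
    push_cast; ring
  rw [h3]
  have h4 : (p : ℝ) ^ (ex p θ + 1) = Real.exp (((ex p θ + 1 : ℕ) : ℝ) * Real.log p) := by
    rw [Real.exp_nat_mul, Real.exp_log (by linarith)]
  rw [h4]
  apply Real.exp_lt_exp.2
  push_cast
  exact h2

theorem ex_mono {p : ℕ} (hp : 2 ≤ p) {θ θ' : ℝ} (h : θ ≤ θ') : p ^ ex p θ ∣ p ^ ex p θ' := by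
  apply pow_dvd_pow
  apply Nat.floor_le_floor
  have hp1 : (1 : ℝ) < p := by exact_mod_cast hp
  have hlog : 0 < Real.log p := Real.log_pos hp1
  exact div_le_div_of_nonneg_right h hlog.le

theorem par_trans {u v w : ℤ × ℤ} (hv : v ≠ (0, 0)) (h1 : v.1 * u.2 - u.1 * v.2 = 0)
    (h2 : v.1 * w.2 - w.1 * v.2 = 0) : w.1 * u.2 - u.1 * w.2 = 0 := by
  have e1 : v.1 * (w.1 * u.2 - u.1 * w.2) = 0 := by linear_combination w.1 * h1 - u.1 * h2
  have e2 : v.2 * (w.1 * u.2 - u.1 * w.2) = 0 := by linear_combination w.2 * h1 - u.2 * h2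
  rcases mul_eq_zero.1 e1 with h | h
  · rcases mul_eq_zero.1 e2 with h' | h'
    · exact absurd (Prod.ext h h') hv
    · exact h'
  · exact h

theorem Lat.mono {P Q S P' Q' S' : ℕ} (h1 : P ∣ P') (h2 : Q ∣ Q') (h3 : S ∣ S') {v : ℤ × ℤ}
    (hv : Lat P' Q' S' v) : Lat P Q S v :=
  ⟨(Int.natCast_dvd_natCast.2 h1).trans hv.1, (Int.natCast_dvd_natCast.2 h2).trans hv.2.1,
    (Int.natCast_dvd_natCast.2 h3).trans hv.2.2⟩

/-- a nonzero integer divisible by two coprime numbers is large -/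
theorem two_dvd {Q S : ℕ} (h : Nat.Coprime Q S) {x : ℤ} (hx : x ≠ 0) (h1 : (Q : ℤ) ∣ x)
    (h2 : (S : ℤ) ∣ x) : ((Q : ℝ)) * S ≤ |(x : ℝ)| := by
  have h3 : ((Q : ℤ) * S) ∣ x := (Nat.isCoprime_iff_coprime.2 h).mul_dvd h1 h2
  have h4 := Int.le_of_dvd (abs_pos.2 hx) ((dvd_abs _ _).2 h3)
  exact_mod_cast h4

theorem balanced (p q r : ℕ) (hp : p.Prime) (hq : q.Prime) (hr : r.Prime) (hpq : p ≠ q)
    (hpr : p ≠ r) (hqr : q ≠ r) (α β γ : ℝ) (hα : 0 ≤ α) (hβ : 0 ≤ β) (hγ : 0 ≤ γ)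
    (hsum : α + β + γ = 1) (n0 : ℕ) :
    ∃ n : ℕ, n0 ≤ n ∧ ∀ v : ℤ × ℤ,
      Lat (p ^ ex p ((1 - α) * n)) (q ^ ex q ((1 - β) * n)) (r ^ ex r ((1 - γ) * n)) v →
      v ≠ (0, 0) → 1 / (3 * (p * q * r)) * Real.exp n ≤ max |(v.1 : ℝ)| |(v.2 : ℝ)| := by
  have hp2 := hp.two_le
  have hq2 := hq.two_le
  have hr2 := hr.two_le
  have hpR : (2 : ℝ) ≤ p := by exact_mod_cast hp2
  have hqR : (2 : ℝ) ≤ q := by exact_mod_cast hq2
  have hrR : (2 : ℝ) ≤ r := by exact_mod_cast hr2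
  obtain ⟨δ, hδ⟩ : ∃ δ : ℝ, δ = 1 / (3 * (p * q * r)) := ⟨_, rfl⟩
  have hpqr : (0 : ℝ) < p * q * r := by positivity
  have hδ0 : 0 < δ := by rw [hδ]; positivity
  have hδe : δ * (3 * (p * q * r)) = 1 := by rw [hδ]; field_simp
  by_contra hcon
  push Not at hcon
  rw [← hδ] at hcon
  choose! v hv using hcon
  obtain ⟨Pn, hPn⟩ : ∃ Pn : ℕ → ℕ, Pn = fun n : ℕ => p ^ ex p ((1 - α) * (n : ℝ)) := ⟨_, rfl⟩
  obtain ⟨Qn, hQn⟩ : ∃ Qn : ℕ → ℕ, Qn = fun n : ℕ => q ^ ex q ((1 - β) * (n : ℝ)) := ⟨_, rfl⟩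
  obtain ⟨Sn, hSn⟩ : ∃ Sn : ℕ → ℕ, Sn = fun n : ℕ => r ^ ex r ((1 - γ) * (n : ℝ)) := ⟨_, rfl⟩
  have hv' : ∀ n, n0 ≤ n → Lat (Pn n) (Qn n) (Sn n) (v n) ∧ v n ≠ (0, 0) ∧
      max |((v n).1 : ℝ)| |((v n).2 : ℝ)| < δ * Real.exp n := by
    intro n hn
    rw [hPn, hQn, hSn]
    exact hv n hn
  have cPQ : ∀ n, Nat.Coprime (Pn n) (Qn n) := fun n => by
    rw [hPn, hQn]; exact Nat.Coprime.pow _ _ ((Nat.coprime_primes hp hq).2 hpq)
  have cPS : ∀ n, Nat.Coprime (Pn n) (Sn n) := fun n => by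
    rw [hPn, hSn]; exact Nat.Coprime.pow _ _ ((Nat.coprime_primes hp hr).2 hpr)
  have cQS : ∀ n, Nat.Coprime (Qn n) (Sn n) := fun n => by
    rw [hQn, hSn]; exact Nat.Coprime.pow _ _ ((Nat.coprime_primes hq hr).2 hqr)
  have lP : ∀ n : ℕ, Real.exp ((1 - α) * n) < p * (Pn n : ℝ) := fun n => by
    rw [hPn]; exact lt_pow_ex hp2
  have lQ : ∀ n : ℕ, Real.exp ((1 - β) * n) < q * (Qn n : ℝ) := fun n => by
    rw [hQn]; exact lt_pow_ex hq2
  have lS : ∀ n : ℕ, Real.exp ((1 - γ) * n) < r * (Sn n : ℝ) := fun n => by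
    rw [hSn]; exact lt_pow_ex hr2
  have lD : ∀ n : ℕ, Real.exp n * Real.exp n ≤ (p * q * r) * ((Pn n * Qn n * Sn n : ℕ) : ℝ) := by
    intro n
    have e1 : Real.exp n * Real.exp n =
        Real.exp ((1 - α) * n) * Real.exp ((1 - β) * n) * Real.exp ((1 - γ) * n) := by
      rw [← Real.exp_add, ← Real.exp_add, ← Real.exp_add]
      congr 1
      have : (1 - α) * (n : ℝ) + (1 - β) * n + (1 - γ) * n = (3 - (α + β + γ)) * n := by ring
      rw [this, hsum]; ring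
    rw [e1]
    have e2 : (p * q * r : ℝ) * ((Pn n * Qn n * Sn n : ℕ) : ℝ) =
        (p * (Pn n : ℝ)) * (q * (Qn n : ℝ)) * (r * (Sn n : ℝ)) := by push_cast; ring
    rw [e2]
    exact mul_le_mul (mul_le_mul (lP n).le (lQ n).le (Real.exp_pos _).le (by positivity))
      (lS n).le (Real.exp_pos _).le (by positivity)
  -- consecutive vectors are parallel
  have hstep : ∀ n, n0 ≤ n → (v n).1 * (v (n + 1)).2 - (v (n + 1)).1 * (v n).2 = 0 := by
    intro n hn
    obtain ⟨a1, a2, a3⟩ := hv' n hn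
    obtain ⟨b1, b2, b3⟩ := hv' (n + 1) (by omega)
    have b1' : Lat (Pn n) (Qn n) (Sn n) (v (n + 1)) := by
      refine b1.mono ?_ ?_ ?_
      · rw [hPn]; apply ex_mono hp2
        push_cast; nlinarith
      · rw [hQn]; apply ex_mono hq2
        push_cast; nlinarith
      · rw [hSn]; apply ex_mono hr2
        push_cast; nlinarith
    refine det_zero (cPQ n) (cPS n) (cQS n) a1 b1' (δ * Real.exp n)
      (δ * Real.exp ((n + 1 : ℕ) : ℝ)) (by positivity) ((le_max_left _ _).trans a3.le)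
      ((le_max_right _ _).trans a3.le) ((le_max_left _ _).trans b3.le)
      ((le_max_right _ _).trans b3.le) ?_
    have e1 : Real.exp ((n + 1 : ℕ) : ℝ) = Real.exp 1 * Real.exp n := by
      rw [← Real.exp_add]; congr 1; push_cast; ring
    rw [e1]
    have e2 := Real.exp_one_lt_d9
    have hDn := lD n
    have hEn : 0 < Real.exp (n : ℝ) * Real.exp n := by positivity
    have e3 : (p * q * r : ℝ) * (2 * (δ * Real.exp n) * (δ * (Real.exp 1 * Real.exp n))) =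
        (2 * Real.exp 1 / 3) * δ * (Real.exp n * Real.exp n) * (δ * (3 * (p * q * r))) := by ring
    rw [hδe, mul_one] at e3
    have e4 : (2 * Real.exp 1 / 3) * δ < 1 := by
      have h8 : (8 : ℝ) ≤ p * q * r := by nlinarith [mul_nonneg (sub_nonneg.2 hpR) (sub_nonneg.2 hqR)]
      have h9 : δ * 24 ≤ 1 := by
        rw [← hδe]; nlinarith
      nlinarith
    have e5 : (p * q * r : ℝ) * (2 * (δ * Real.exp n) * (δ * (Real.exp 1 * Real.exp n))) <
        (p * q * r) * ((Pn n * Qn n * Sn n : ℕ) : ℝ) := by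
      rw [e3]
      refine lt_of_lt_of_le ?_ hDn
      calc (2 * Real.exp 1 / 3) * δ * (Real.exp n * Real.exp n) < 1 * (Real.exp n * Real.exp n) :=
            mul_lt_mul_of_pos_right e4 hEn
        _ = _ := one_mul _
    exact lt_of_mul_lt_mul_left e5 hpqr.le
  have hall : ∀ n, n0 ≤ n → (v n).1 * (v n0).2 - (v n0).1 * (v n).2 = 0 := by
    intro n hn
    induction n, hn using Nat.le_induction with
    | base => ring
    | succ n hn ih => exact par_trans (hv' n hn).2.1 ih (hstep n hn)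
  -- the vectors have non-zero coordinates
  have hex : ∀ (x : ℝ) (n : ℕ), 0 ≤ x → Real.exp n ≤ Real.exp ((1 + x) * n) := by
    intro x n hx
    apply Real.exp_le_exp.2
    have : 0 ≤ x * n := by positivity
    linarith
  have small : ∀ (x y : ℕ) (X Y : ℝ) (a b : ℝ) (n : ℕ), 2 ≤ x → 2 ≤ y → 0 ≤ X → 0 ≤ Y →
      a + b ≤ 1 → (x : ℝ) * y * 2 ≤ p * q * r →
      Real.exp ((1 - a) * n) < x * X → Real.exp ((1 - b) * n) < y * Y → δ * Real.exp n < X * Y := by
    intro x y X Y a b n hx hy hX hY hab hxy h1 h2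
    have hx' : (2 : ℝ) ≤ x := by exact_mod_cast hx
    have hy' : (2 : ℝ) ≤ y := by exact_mod_cast hy
    have h3 : Real.exp n ≤ Real.exp ((1 - a) * n) * Real.exp ((1 - b) * n) := by
      rw [← Real.exp_add]
      apply Real.exp_le_exp.2
      have : 0 ≤ (1 - (a + b)) * (n : ℝ) := by
        have : 0 ≤ 1 - (a + b) := by linarith
        positivity
      nlinarith
    have h4 : Real.exp n < (x * X) * (y * Y) :=
      lt_of_le_of_lt h3 (mul_lt_mul'' h1 h2 (Real.exp_pos _).le (Real.exp_pos _).le)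
    have h5 : δ * Real.exp n < δ * ((x * X) * (y * Y)) := mul_lt_mul_of_pos_left h4 hδ0
    have h6 : δ * ((x * X) * (y * Y)) ≤ X * Y := by
      have h7 : δ * (x * y) ≤ 1 := by
        rw [← hδe]
        apply mul_le_mul_of_nonneg_left _ hδ0.le
        nlinarith
      have h8 : 0 ≤ X * Y := by positivity
      calc δ * ((x * X) * (y * Y)) = (δ * (x * y)) * (X * Y) := by ring
        _ ≤ 1 * (X * Y) := mul_le_mul_of_nonneg_right h7 h8
        _ = _ := one_mul _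
    linarith
  have hnz : ∀ n, n0 ≤ n → (v n).1 ≠ 0 ∧ (v n).2 ≠ 0 ∧ (v n).1 + (v n).2 ≠ 0 := by
    intro n hn
    obtain ⟨⟨a1, a2, a3⟩, hne, hlt⟩ := hv' n hn
    have hlt1 := lt_of_le_of_lt (le_max_left _ _) hlt
    have hlt2 := lt_of_le_of_lt (le_max_right _ _) hlt
    have c1 : (p : ℝ) * q * 2 ≤ p * q * r := by
      have : (0 : ℝ) < p * q := by positivity
      nlinarith
    have c2 : (p : ℝ) * r * 2 ≤ p * q * r := by
      have : (0 : ℝ) < p * r := by positivity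
      nlinarith
    have c3 : (q : ℝ) * r * 2 ≤ p * q * r := by
      have : (0 : ℝ) < q * r := by positivity
      nlinarith
    refine ⟨?_, ?_, ?_⟩
    · intro h0
      have h2 : (v n).2 ≠ 0 := fun h => hne (Prod.ext h0 h)
      rw [h0, zero_add] at a3
      have h3 := two_dvd (cQS n) h2 a2 a3
      have h4 := small q r (Qn n) (Sn n) β γ n hq2 hr2 (by positivity) (by positivity)
        (by linarith) c3 (lQ n) (lS n)
      linarith
    · intro h0
      have h2 : (v n).1 ≠ 0 := fun h => hne (Prod.ext h h0)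
      rw [h0, add_zero] at a3
      have h3 := two_dvd (cPS n) h2 a1 a3
      have h4 := small p r (Pn n) (Sn n) α γ n hp2 hr2 (by positivity) (by positivity)
        (by linarith) c2 (lP n) (lS n)
      linarith
    · intro h0
      have h1 : (v n).2 = -(v n).1 := by linarith
      have h2 : (v n).1 ≠ 0 := fun h => hne (Prod.ext h (by rw [h1, h]; simp))
      rw [h1] at a2
      have h3 := two_dvd (cPQ n) h2 a1 ((dvd_neg).1 a2)
      have h4 := small p q (Pn n) (Qn n) α β n hp2 hq2 (by positivity) (by positivity)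
        (by linarith) c1 (lP n) (lQ n)
      linarith
  -- contradiction for large `n`
  obtain ⟨C, hC⟩ : ∃ C : ℝ, C = |((v n0).2 : ℝ)| * |((v n0).1 : ℝ) + (v n0).2| := ⟨_, rfl⟩
  obtain ⟨m, hm⟩ := exists_nat_gt (C)
  obtain ⟨n, hn⟩ : ∃ n : ℕ, n = max n0 m := ⟨_, rfl⟩
  have hn0 : n0 ≤ n := by rw [hn]; exact le_max_left _ _
  have hnm : (m : ℝ) ≤ n := by rw [hn]; exact_mod_cast le_max_right _ _
  obtain ⟨d1, d2, d3⟩ := hnz n hn0
  obtain ⟨a1, a2, a3⟩ := hv' n hn0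
  have h1 := parallel_long (cPQ n) (cPS n) (cQS n) a1 d1 d2 d3 (hv' n0 le_rfl).2.1 (hall n hn0)
  have h2 : ((Pn n * Qn n * Sn n : ℕ) : ℝ) ≤ |((v n).1 : ℝ)| * C := by
    rw [hC]
    have : (((Pn n * Qn n * Sn n : ℕ) : ℤ) : ℝ) ≤
        ((|(v n).1| * (|(v n0).2| * |(v n0).1 + (v n0).2|) : ℤ) : ℝ) := by exact_mod_cast h1
    push_cast at this ⊢
    exact this
  have hC0 : 0 ≤ C := by rw [hC]; positivity
  have h3 : |((v n).1 : ℝ)| * C ≤ δ * Real.exp n * C :=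
    mul_le_mul_of_nonneg_right (lt_of_le_of_lt (le_max_left _ _) a3).le hC0
  have h4 := lD n
  have h5 : (n : ℝ) < Real.exp n := lt_of_lt_of_le (by linarith) (Real.add_one_le_exp (n : ℝ))
  have h6 : Real.exp n * Real.exp n ≤ (p * q * r) * (δ * Real.exp n * C) :=
    h4.trans (mul_le_mul_of_nonneg_left (h2.trans h3) hpqr.le)
  have h7 : (p * q * r) * (δ * Real.exp n * C) = Real.exp n * C / 3 := by
    have : (p * q * r : ℝ) * (δ * Real.exp n * C) =
      (δ * (3 * (p * q * r))) * (Real.exp n * C / 3) := by ring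
    rw [this, hδe, one_mul]
  rw [h7] at h6
  have h8 : C < Real.exp n := by linarith
  have h9 : Real.exp n * C < Real.exp n * Real.exp n :=
    mul_lt_mul_of_pos_left h8 (Real.exp_pos _)
  have h10 : 0 ≤ Real.exp n * C := mul_nonneg (Real.exp_pos _).le hC0
  linarith

end Pool.Agent.H70SH
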