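import Pool.Agent.H70HD.Step

/-!
The lattice of the pairs `(a, b)` with `P ∣ a`, `Q ∣ b`, `S ∣ a + b`.
-/

set_option autoImplicit false

namespace Pool.Agent.H70SH

/-- membership in the lattice -/
def Lat (P Q S : ℕ) (v : ℤ × ℤ) : Prop := (P : ℤ) ∣ v.1 ∧ (Q : ℤ) ∣ v.2 ∧ (S : ℤ) ∣ v.1 + v.2

theorem Lat.add {P Q S : ℕ} {v w : ℤ × ℤ} (hv : Lat P Q S v) (hw : Lat P Q S w) :
    Lat P Q S (v + w) := by
  obtain ⟨a1, a2, a3⟩ := hv
  obtain ⟨b1, b2, b3⟩ := hw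
  refine ⟨dvd_add a1 b1, dvd_add a2 b2, ?_⟩
  have : (v + w).1 + (v + w).2 = (v.1 + v.2) + (w.1 + w.2) := by
    simp only [Prod.fst_add, Prod.snd_add]; ring
  rw [this]; exact dvd_add a3 b3

theorem Lat.smul {P Q S : ℕ} {v : ℤ × ℤ} (hv : Lat P Q S v) (m : ℤ) :
    Lat P Q S (m * v.1, m * v.2) := by
  obtain ⟨a1, a2, a3⟩ := hv
  refine ⟨Dvd.dvd.mul_left a1 _, Dvd.dvd.mul_left a2 _, ?_⟩
  show (S : ℤ) ∣ m * v.1 + m * v.2
  rw [← mul_add]; exact Dvd.dvd.mul_left a3 _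

theorem mul3_dvd {P Q S : ℕ} (hPQ : Nat.Coprime P Q) (hPS : Nat.Coprime P S)
    (hQS : Nat.Coprime Q S) {x : ℤ} (h1 : (P : ℤ) ∣ x) (h2 : (Q : ℤ) ∣ x) (h3 : (S : ℤ) ∣ x) :
    ((P * Q * S : ℕ) : ℤ) ∣ x := by
  have e1 : IsCoprime (P : ℤ) (Q : ℤ) := Nat.isCoprime_iff_coprime.2 hPQ
  have e2 : IsCoprime (P : ℤ) (S : ℤ) := Nat.isCoprime_iff_coprime.2 hPS
  have e3 : IsCoprime (Q : ℤ) (S : ℤ) := Nat.isCoprime_iff_coprime.2 hQS
  push_cast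
  exact (e2.mul_left e3).mul_dvd (e1.mul_dvd h1 h2) h3

theorem det_dvd {P Q S : ℕ} (hPQ : Nat.Coprime P Q) (hPS : Nat.Coprime P S)
    (hQS : Nat.Coprime Q S) {v w : ℤ × ℤ} (hv : Lat P Q S v) (hw : Lat P Q S w) :
    ((P * Q * S : ℕ) : ℤ) ∣ v.1 * w.2 - w.1 * v.2 := by
  obtain ⟨a1, a2, a3⟩ := hv
  obtain ⟨b1, b2, b3⟩ := hw
  refine mul3_dvd hPQ hPS hQS ?_ ?_ ?_
  · exact dvd_sub (Dvd.dvd.mul_right a1 _) (Dvd.dvd.mul_right b1 _)
  · exact dvd_sub (Dvd.dvd.mul_left b2 _) (Dvd.dvd.mul_left a2 _)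
  · have : v.1 * w.2 - w.1 * v.2 = v.1 * (w.1 + w.2) - w.1 * (v.1 + v.2) := by ring
    rw [this]
    exact dvd_sub (Dvd.dvd.mul_left b3 _) (Dvd.dvd.mul_left a3 _)

/-- a vector with small determinant against another one is parallel to it -/
theorem det_zero {P Q S : ℕ} (hPQ : Nat.Coprime P Q) (hPS : Nat.Coprime P S)
    (hQS : Nat.Coprime Q S) {v w : ℤ × ℤ} (hv : Lat P Q S v) (hw : Lat P Q S w) (A B : ℝ)
    (hA : 0 ≤ A) (hv1 : |(v.1 : ℝ)| ≤ A) (hv2 : |(v.2 : ℝ)| ≤ A)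
    (hw1 : |(w.1 : ℝ)| ≤ B) (hw2 : |(w.2 : ℝ)| ≤ B) (h : 2 * A * B < ((P * Q * S : ℕ) : ℝ)) :
    v.1 * w.2 - w.1 * v.2 = 0 := by
  by_contra hne
  have h1 := Int.le_of_dvd (abs_pos.2 hne) ((dvd_abs _ _).2 (det_dvd hPQ hPS hQS hv hw))
  have h2 : ((P * Q * S : ℕ) : ℝ) ≤ |(v.1 : ℝ) * w.2 - w.1 * v.2| := by
    have : (((P * Q * S : ℕ) : ℤ) : ℝ) ≤ ((|v.1 * w.2 - w.1 * v.2| : ℤ) : ℝ) := by
      exact_mod_cast h1
    push_cast at this ⊢
    exact this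
  have h3 : |(v.1 : ℝ) * w.2 - w.1 * v.2| ≤ |(v.1 : ℝ)| * |(w.2 : ℝ)| + |(w.1 : ℝ)| * |(v.2 : ℝ)| := by
    rw [← abs_mul, ← abs_mul]; exact abs_sub _ _
  have h4 : |(v.1 : ℝ)| * |(w.2 : ℝ)| ≤ A * B := mul_le_mul hv1 hw2 (abs_nonneg _) hA
  have h5 : |(w.1 : ℝ)| * |(v.2 : ℝ)| ≤ A * B := by
    rw [mul_comm]; exact mul_le_mul hv2 hw1 (abs_nonneg _) hA
  linarith

/-- a lattice vector parallel to a given one is long -/
theorem parallel_long {P Q S : ℕ} (hPQ : Nat.Coprime P Q) (hPS : Nat.Coprime P S)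
    (hQS : Nat.Coprime Q S) {v u : ℤ × ℤ} (hv : Lat P Q S v) (ha : v.1 ≠ 0) (hb : v.2 ≠ 0)
    (hc : v.1 + v.2 ≠ 0) (hu : u ≠ (0, 0)) (hpar : v.1 * u.2 - u.1 * v.2 = 0) :
    ((P * Q * S : ℕ) : ℤ) ≤ |v.1| * (|u.2| * |u.1 + u.2|) := by
  obtain ⟨g, hg⟩ : ∃ g : ℤ, g = Int.gcd v.1 v.2 := ⟨_, rfl⟩
  have hg0 : 0 < Int.gcd v.1 v.2 := Int.gcd_pos_of_ne_zero_left _ ha
  obtain ⟨a', b', hcop, e1, e2⟩ := Int.exists_gcd_one hg0
  have hgpos : 0 < g := by rw [hg]; exact_mod_cast hg0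
  rw [← hg] at e1 e2
  have ha' : a' ≠ 0 := by rintro rfl; apply ha; rw [e1]; ring
  have hb' : b' ≠ 0 := by rintro rfl; apply hb; rw [e2]; ring
  have hcop' : IsCoprime a' b' := Int.isCoprime_iff_gcd_eq_one.2 hcop
  have hpar' : a' * u.2 = u.1 * b' := by
    have : g * (a' * u.2) = g * (u.1 * b') := by
      rw [e1, e2] at hpar; linear_combination hpar
    exact mul_left_cancel₀ hgpos.ne' this
  obtain ⟨h, hh⟩ : a' ∣ u.1 := by
    have : a' ∣ u.1 * b' := ⟨u.2, hpar'.symm⟩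
    exact hcop'.dvd_of_dvd_mul_right this
  have hh2 : u.2 = b' * h := by
    have : a' * u.2 = a' * (b' * h) := by rw [hpar', hh]; ring
    exact mul_left_cancel₀ ha' this
  have hh0 : h ≠ 0 := by
    rintro rfl
    apply hu
    ext
    · simp [hh]
    · simp [hh2]
  have hab' : a' + b' ≠ 0 := by
    intro h0
    apply hc
    rw [e1, e2]
    have : a' * g + b' * g = (a' + b') * g := by ring
    rw [this, h0, zero_mul]
  obtain ⟨c1, c2, c3⟩ := hv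
  have hx : ((P * Q * S : ℕ) : ℤ) ∣ g * (a' * b' * (a' + b')) := by
    refine mul3_dvd hPQ hPS hQS ?_ ?_ ?_
    · rw [e1] at c1
      have : g * (a' * b' * (a' + b')) = (a' * g) * (b' * (a' + b')) := by ring
      rw [this]; exact Dvd.dvd.mul_right c1 _
    · rw [e2] at c2
      have : g * (a' * b' * (a' + b')) = (b' * g) * (a' * (a' + b')) := by ring
      rw [this]; exact Dvd.dvd.mul_right c2 _
    · rw [e1, e2] at c3
      have : g * (a' * b' * (a' + b')) = (a' * g + b' * g) * (a' * b') := by ring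
      rw [this]; exact Dvd.dvd.mul_right c3 _
  have hne : g * (a' * b' * (a' + b')) ≠ 0 :=
    mul_ne_zero hgpos.ne' (mul_ne_zero (mul_ne_zero ha' hb') hab')
  have h1 := Int.le_of_dvd (abs_pos.2 hne) ((dvd_abs _ _).2 hx)
  have h2 : |g * (a' * b' * (a' + b'))| = |v.1| * (|b'| * |a' + b'|) := by
    rw [e1, abs_mul, abs_mul, abs_mul, abs_mul]; ring
  rw [h2] at h1
  have h3 : |b'| ≤ |u.2| := by
    rw [hh2, abs_mul]
    exact le_mul_of_one_le_right (abs_nonneg _) (Int.one_le_abs hh0)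
  have h4 : |a' + b'| ≤ |u.1 + u.2| := by
    have : u.1 + u.2 = (a' + b') * h := by rw [hh, hh2]; ring
    rw [this, abs_mul]
    exact le_mul_of_one_le_right (abs_nonneg _) (Int.one_le_abs hh0)
  refine h1.trans ?_
  gcongr

/-- parallel lattice vectors are well spaced -/
theorem card_parallel {P Q S : ℕ} (m T : ℝ) (hm : 0 < m) (hT : 0 ≤ T)
    (hmin : ∀ v : ℤ × ℤ, Lat P Q S v → v ≠ (0, 0) → m ≤ max |(v.1 : ℝ)| |(v.2 : ℝ)|)
    (G : Finset (ℤ × ℤ)) (hG : ∀ v ∈ G, ∀ w ∈ G, Lat P Q S (v - w))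
    (hT1 : ∀ v ∈ G, ∀ w ∈ G, |(v.1 : ℝ) - w.1| ≤ T) (hT2 : ∀ v ∈ G, ∀ w ∈ G, |(v.2 : ℝ) - w.2| ≤ T)
    (hpar : ∀ u ∈ G, ∀ v ∈ G, ∀ w ∈ G, (v.1 - u.1) * (w.2 - u.2) - (w.1 - u.1) * (v.2 - u.2) = 0) :
    (G.card : ℝ) ≤ T / m + 1 := by
  classical
  by_cases hcard : G.card ≤ 1
  · have h1 : (G.card : ℝ) ≤ 1 := by exact_mod_cast hcard
    have h2 : 0 ≤ T / m := by positivity
    linarith
  push Not at hcard
  obtain ⟨u, hu, w, hw, huw⟩ := Finset.one_lt_card.1 hcard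
  -- the dominant coordinate
  have key : ∀ (c d : ℤ × ℤ → ℤ), (∀ v w, c (v - w) = c v - c w) → (∀ v w, d (v - w) = d v - d w) →
      |d (w - u)| ≤ |c (w - u)| → (∀ v : ℤ × ℤ, v ≠ (0, 0) → Lat P Q S v → |d v| ≤ |c v| →
        m ≤ |(c v : ℝ)|) → c (w - u) ≠ 0 →
      (∀ v ∈ G, ∀ w ∈ G, |(c v : ℝ) - c w| ≤ T) →
      (∀ v ∈ G, ∀ v' ∈ G, c (v - v') * d (w - u) = d (v - v') * c (w - u)) →
      (G.card : ℝ) ≤ T / m + 1 := by
    intro c d hc hd hdc hm' hne hT' hp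
    have hdom : ∀ v ∈ G, ∀ v' ∈ G, |d (v - v')| ≤ |c (v - v')| := by
      intro v hv v' hv'
      have h1 := hp v hv v' hv'
      have h2 : |d (v - v')| * |c (w - u)| = |c (v - v')| * |d (w - u)| := by
        rw [← abs_mul, ← abs_mul, h1]
      have h3 : |d (v - v')| * |c (w - u)| ≤ |c (v - v')| * |c (w - u)| := by
        rw [h2]; exact mul_le_mul_of_nonneg_left hdc (abs_nonneg _)
      exact le_of_mul_le_mul_right h3 (abs_pos.2 hne)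
    have hinj : Set.InjOn (fun v : ℤ × ℤ => (c v : ℝ)) (G : Set (ℤ × ℤ)) := by
      intro v hv v' hv' h
      by_contra hvv
      have h1 : v - v' ≠ (0, 0) := by
        intro h0
        apply hvv
        have : v - v' = 0 := h0
        exact sub_eq_zero.1 this
      have h2 := hm' (v - v') h1 (hG v hv v' hv') (hdom v hv v' hv')
      rw [hc] at h2
      simp only at h
      push_cast at h2
      rw [h, sub_self, abs_zero] at h2
      linarith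
    have h := Pool.Agent.H70HD.card_spaced (G.image (fun v : ℤ × ℤ => (c v : ℝ))) (1 / m) T
      (by positivity) hT (by
        intro y hy y' hy' hne'
        rw [Finset.mem_image] at hy hy'
        obtain ⟨v, hv, rfl⟩ := hy
        obtain ⟨v', hv', rfl⟩ := hy'
        have h1 : v - v' ≠ (0, 0) := by
          intro h0
          apply hne'
          have : v - v' = 0 := h0
          rw [sub_eq_zero.1 this]
        have h2 := hm' (v - v') h1 (hG v hv v' hv') (hdom v hv v' hv')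
        rw [hc] at h2
        push_cast at h2
        rw [one_div_one_div]
        exact h2) (by
        intro y hy y' hy'
        rw [Finset.mem_image] at hy hy'
        obtain ⟨v, hv, rfl⟩ := hy
        obtain ⟨v', hv', rfl⟩ := hy'
        exact hT' v hv v' hv')
    rw [Finset.card_image_of_injOn hinj, mul_one_div] at h
    exact h
  have huw' : w - u ≠ (0, 0) := by
    intro h0
    apply huw
    have : w - u = 0 := h0
    exact (sub_eq_zero.1 this).symm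
  have hpp : ∀ v ∈ G, ∀ v' ∈ G, (v - v').1 * (w - u).2 = (v - v').2 * (w - u).1 := by
    intro v hv v' hv'
    have h1 := hpar u hu v hv w hw
    have h2 := hpar u hu v' hv' w hw
    simp only [Prod.fst_sub, Prod.snd_sub]
    linear_combination h1 - h2
  rcases le_total |(w - u).2| |(w - u).1| with hle | hle
  · refine key Prod.fst Prod.snd (fun _ _ => rfl) (fun _ _ => rfl) hle ?_ ?_ hT1 hpp
    · intro v hv hL hdom
      have h1 := hmin v hL hv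
      rw [max_eq_left] at h1
      · exact h1
      · exact_mod_cast hdom
    · intro h0
      rw [h0, abs_zero] at hle
      have h1 : (w - u).2 = 0 := abs_eq_zero.1 (le_antisymm hle (abs_nonneg _))
      exact huw' (Prod.ext h0 h1)
  · refine key Prod.snd Prod.fst (fun _ _ => rfl) (fun _ _ => rfl) hle ?_ ?_ hT2 ?_
    · intro v hv hL hdom
      have h1 := hmin v hL hv
      rw [max_eq_right] at h1
      · exact h1
      · exact_mod_cast hdom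
    · intro h0
      rw [h0, abs_zero] at hle
      have h1 : (w - u).1 = 0 := abs_eq_zero.1 (le_antisymm hle (abs_nonneg _))
      exact huw' (Prod.ext h1 h0)
    · intro v hv v' hv'
      have := hpp v hv v' hv'
      linarith

/-- two independent short vectors -/
theorem two_vectors {P Q S : ℕ} (hP : 0 < P) (hQ : 0 < Q) (hS : 0 < S) (δ E : ℝ) (hδ : 0 < δ)
    (hE : 1 ≤ E) (hδ1 : δ ≤ 1) (hD : ((P * Q * S : ℕ) : ℝ) ≤ E ^ 2)
    (hmin : ∀ v : ℤ × ℤ, Lat P Q S v → v ≠ (0, 0) → δ * E ≤ max |(v.1 : ℝ)| |(v.2 : ℝ)|) :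
    ∃ v w : ℤ × ℤ, Lat P Q S v ∧ Lat P Q S w ∧ v.1 * w.2 - w.1 * v.2 ≠ 0 ∧
      |(v.1 : ℝ)| ≤ 5 * E / δ ∧ |(v.2 : ℝ)| ≤ 5 * E / δ ∧
      |(w.1 : ℝ)| ≤ 5 * E / δ ∧ |(w.2 : ℝ)| ≤ 5 * E / δ := by
  classical
  obtain ⟨T, hT⟩ : ∃ T : ℕ, T = ⌈4 * E / δ⌉₊ := ⟨_, rfl⟩
  have hE0 : 0 < E := by linarith
  have hT1 : 4 * E / δ ≤ T := by rw [hT]; exact Nat.le_ceil _
  have hT2 : (T : ℝ) ≤ 5 * E / δ := by
    have h1 := Nat.ceil_lt_add_one (show 0 ≤ 4 * E / δ by positivity)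
    rw [← hT] at h1
    have h2 : 1 ≤ E / δ := by rw [one_le_div hδ]; linarith
    have h3 : 5 * E / δ = 4 * E / δ + E / δ := by ring
    linarith
  have hTpos : (0 : ℝ) < T := lt_of_lt_of_le (by positivity) hT1
  have : NeZero P := ⟨hP.ne'⟩
  have : NeZero Q := ⟨hQ.ne'⟩
  have : NeZero S := ⟨hS.ne'⟩
  let f : ℤ × ℤ → ZMod P × ZMod Q × ZMod S := fun v => ((v.1 : ZMod P), (v.2 : ZMod Q),
    ((v.1 + v.2 : ℤ) : ZMod S))
  set s : Finset (ℤ × ℤ) := Finset.Ico (0 : ℤ) T ×ˢ Finset.Ico (0 : ℤ) T with hs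
  have hscard : s.card = T * T := by
    rw [hs, Finset.card_product, Int.card_Ico]
    simp
  obtain ⟨n, hn⟩ : ∃ n : ℕ, n = ⌊(T : ℝ) / (δ * E)⌋₊ + 1 := ⟨_, rfl⟩
  have hlt : (Finset.univ : Finset (ZMod P × ZMod Q × ZMod S)).card * n < s.card := by
    rw [hscard, Finset.card_univ, Fintype.card_prod, Fintype.card_prod, ZMod.card, ZMod.card,
      ZMod.card]
    have h1 : ((P * Q * S : ℕ) : ℝ) * (n : ℝ) < (T : ℝ) * T := by
      have h2 : (n : ℝ) ≤ T / (δ * E) + 1 := by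
        rw [hn]; push_cast
        have := Nat.floor_le (show 0 ≤ (T : ℝ) / (δ * E) by positivity)
        linarith
      have h3 : ((P * Q * S : ℕ) : ℝ) * (n : ℝ) ≤ E ^ 2 * (T / (δ * E) + 1) :=
        mul_le_mul hD h2 (by positivity) (by positivity)
      have h4 : E ^ 2 * ((T : ℝ) / (δ * E) + 1) = E / δ * T + E ^ 2 := by field_simp
      have h5 : E / δ ≤ T / 4 := by
        have : 4 * E / δ = 4 * (E / δ) := by ring
        linarith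
      have h6 : E ≤ T / 4 := by
        have : E ≤ E / δ := by rw [le_div_iff₀ hδ]; nlinarith
        linarith
      have h7 : E / δ * T ≤ T / 4 * T := mul_le_mul_of_nonneg_right h5 hTpos.le
      have h8 : E ^ 2 ≤ (T / 4) ^ 2 := pow_le_pow_left₀ hE0.le h6 2
      nlinarith
    have h2 : ((P * (Q * S) * n : ℕ) : ℝ) < ((T * T : ℕ) : ℝ) := by
      push_cast at h1 ⊢
      calc (P : ℝ) * (Q * S) * n = (P : ℝ) * Q * S * n := by ring
        _ < _ := h1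
    exact_mod_cast h2
  obtain ⟨y, -, hy⟩ := Finset.exists_lt_card_fiber_of_mul_lt_card_of_maps_to
    (fun (a : ℤ × ℤ) (_ : a ∈ s) => Finset.mem_univ (f a)) hlt
  set G : Finset (ℤ × ℤ) := s.filter (fun x => f x = y) with hG
  have hlat : ∀ v ∈ G, ∀ w ∈ G, Lat P Q S (v - w) := by
    intro v hv w hw
    have h1 : f v = f w := by
      rw [(Finset.mem_filter.1 hv).2, (Finset.mem_filter.1 hw).2]
    simp only [f, Prod.mk.injEq] at h1
    obtain ⟨h2, h3, h4⟩ := h1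
    refine ⟨?_, ?_, ?_⟩
    · have := (ZMod.intCast_eq_intCast_iff_dvd_sub w.1 v.1 P).1 h2.symm
      simpa using this
    · have := (ZMod.intCast_eq_intCast_iff_dvd_sub w.2 v.2 Q).1 h3.symm
      simpa using this
    · have := (ZMod.intCast_eq_intCast_iff_dvd_sub (w.1 + w.2) (v.1 + v.2) S).1 h4.symm
      have e : (v - w).1 + (v - w).2 = v.1 + v.2 - (w.1 + w.2) := by
        simp only [Prod.fst_sub, Prod.snd_sub]; ring
      rw [e]; exact this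
  have hbox : ∀ v ∈ G, (0 : ℝ) ≤ v.1 ∧ (v.1 : ℝ) ≤ T ∧ (0 : ℝ) ≤ v.2 ∧ (v.2 : ℝ) ≤ T := by
    intro v hv
    have h1 := (Finset.mem_filter.1 hv).1
    rw [hs, Finset.mem_product, Finset.mem_Ico, Finset.mem_Ico] at h1
    obtain ⟨⟨h2, h3⟩, h4, h5⟩ := h1
    exact ⟨by exact_mod_cast h2, by exact_mod_cast h3.le, by exact_mod_cast h4,
      by exact_mod_cast h5.le⟩
  have hd1 : ∀ v ∈ G, ∀ w ∈ G, |(v.1 : ℝ) - w.1| ≤ T := by
    intro v hv w hw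
    obtain ⟨h1, h2, -, -⟩ := hbox v hv
    obtain ⟨h3, h4, -, -⟩ := hbox w hw
    rw [abs_le]; constructor <;> linarith
  have hd2 : ∀ v ∈ G, ∀ w ∈ G, |(v.2 : ℝ) - w.2| ≤ T := by
    intro v hv w hw
    obtain ⟨-, -, h1, h2⟩ := hbox v hv
    obtain ⟨-, -, h3, h4⟩ := hbox w hw
    rw [abs_le]; constructor <;> linarith
  have hnot : ¬ ∀ u ∈ G, ∀ v ∈ G, ∀ w ∈ G,
      (v.1 - u.1) * (w.2 - u.2) - (w.1 - u.1) * (v.2 - u.2) = 0 := by
    intro hpar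
    have h1 := card_parallel (δ * E) T (by positivity) hTpos.le hmin G hlat hd1 hd2 hpar
    have h2 : (n : ℝ) + 1 ≤ G.card := by exact_mod_cast hy
    have h3 : (T : ℝ) / (δ * E) < n := by
      rw [hn]; push_cast; exact Nat.lt_floor_add_one _
    linarith
  push Not at hnot
  obtain ⟨u, hu, v, hv, w, hw, hne⟩ := hnot
  refine ⟨v - u, w - u, hlat v hv u hu, hlat w hw u hu, ?_, ?_, ?_, ?_, ?_⟩
  · simpa using hne
  · have := hd1 v hv u hu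
    simp only [Prod.fst_sub]; push_cast; linarith
  · have := hd2 v hv u hu
    simp only [Prod.snd_sub]; push_cast; linarith
  · have := hd1 w hw u hu
    simp only [Prod.fst_sub]; push_cast; linarith
  · have := hd2 w hw u hu
    simp only [Prod.snd_sub]; push_cast; linarith

/-- points of a translate near a given real point -/
theorem near {P Q S : ℕ} (v w w0 : ℤ × ℤ) (hv : Lat P Q S v) (hw : Lat P Q S w)
    (hw0 : Lat P Q S w0) (hdet : v.1 * w.2 - w.1 * v.2 ≠ 0) (T : ℝ)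
    (hv1 : |(v.1 : ℝ)| ≤ T) (hv2 : |(v.2 : ℝ)| ≤ T) (hw1 : |(w.1 : ℝ)| ≤ T)
    (hw2 : |(w.2 : ℝ)| ≤ T) (M : ℕ) (hM : 0 < M) (z1 z2 : ℝ) :
    ∃ y : ℤ × ℤ, Lat P Q S y ∧ (M : ℤ) ∣ y.1 - w0.1 ∧ (M : ℤ) ∣ y.2 - w0.2 ∧
      |(y.1 : ℝ) - z1| ≤ 2 * M * T ∧ |(y.2 : ℝ) - z2| ≤ 2 * M * T := by
  have hMR : (0 : ℝ) < M := by exact_mod_cast hM
  obtain ⟨Δ, hΔ⟩ : ∃ Δ : ℝ, Δ = (v.1 : ℝ) * w.2 - w.1 * v.2 := ⟨_, rfl⟩
  have hΔ0 : Δ ≠ 0 := by rw [hΔ]; exact_mod_cast hdet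
  obtain ⟨t1, ht1⟩ : ∃ t1 : ℝ, t1 = (z1 - w0.1) / M := ⟨_, rfl⟩
  obtain ⟨t2, ht2⟩ : ∃ t2 : ℝ, t2 = (z2 - w0.2) / M := ⟨_, rfl⟩
  obtain ⟨x, hx⟩ : ∃ x : ℝ, x = (t1 * w.2 - w.1 * t2) / Δ := ⟨_, rfl⟩
  obtain ⟨y, hy⟩ : ∃ y : ℝ, y = (v.1 * t2 - t1 * v.2) / Δ := ⟨_, rfl⟩
  have e1 : t1 = x * v.1 + y * w.1 := by
    rw [hx, hy, div_mul_eq_mul_div, div_mul_eq_mul_div, ← add_div, eq_div_iff hΔ0, hΔ]; ring
  have e2 : t2 = x * v.2 + y * w.2 := by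
    rw [hx, hy, div_mul_eq_mul_div, div_mul_eq_mul_div, ← add_div, eq_div_iff hΔ0, hΔ]; ring
  have hfx1 := Int.floor_le x
  have hfx2 := Int.lt_floor_add_one x
  have hfy1 := Int.floor_le y
  have hfy2 := Int.lt_floor_add_one y
  have bx : |(⌊x⌋ : ℝ) - x| ≤ 1 := by rw [abs_le]; constructor <;> linarith
  have by' : |(⌊y⌋ : ℝ) - y| ≤ 1 := by rw [abs_le]; constructor <;> linarith
  have hT : 0 ≤ T := (abs_nonneg _).trans hv1
  refine ⟨w0 + (M * (⌊x⌋ * v.1 + ⌊y⌋ * w.1), M * (⌊x⌋ * v.2 + ⌊y⌋ * w.2)), ?_, ?_, ?_, ?_, ?_⟩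
  · refine hw0.add ?_
    have h1 : Lat P Q S ((⌊x⌋ * v.1, ⌊x⌋ * v.2) + (⌊y⌋ * w.1, ⌊y⌋ * w.2)) :=
      (hv.smul ⌊x⌋).add (hw.smul ⌊y⌋)
    exact h1.smul M
  · simp
  · simp
  · simp only [Prod.fst_add]
    push_cast
    have e3 : (w0.1 : ℝ) + M * (⌊x⌋ * v.1 + ⌊y⌋ * w.1) - z1 =
        M * (((⌊x⌋ : ℝ) - x) * v.1 + ((⌊y⌋ : ℝ) - y) * w.1) := by
      have : z1 = w0.1 + M * t1 := by rw [ht1]; field_simp; ring
      rw [this, e1]; ring
    rw [e3, abs_mul, abs_of_pos hMR]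
    have h4 : |((⌊x⌋ : ℝ) - x) * v.1 + ((⌊y⌋ : ℝ) - y) * w.1| ≤ 2 * T := by
      refine (abs_add_le _ _).trans ?_
      rw [abs_mul, abs_mul]
      have h5 : |(⌊x⌋ : ℝ) - x| * |(v.1 : ℝ)| ≤ 1 * T :=
        mul_le_mul bx hv1 (abs_nonneg _) zero_le_one
      have h6 : |(⌊y⌋ : ℝ) - y| * |(w.1 : ℝ)| ≤ 1 * T :=
        mul_le_mul by' hw1 (abs_nonneg _) zero_le_one
      linarith
    calc (M : ℝ) * |((⌊x⌋ : ℝ) - x) * v.1 + ((⌊y⌋ : ℝ) - y) * w.1| ≤ M * (2 * T) :=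
          mul_le_mul_of_nonneg_left h4 hMR.le
      _ = _ := by ring
  · simp only [Prod.snd_add]
    push_cast
    have e3 : (w0.2 : ℝ) + M * (⌊x⌋ * v.2 + ⌊y⌋ * w.2) - z2 =
        M * (((⌊x⌋ : ℝ) - x) * v.2 + ((⌊y⌋ : ℝ) - y) * w.2) := by
      have : z2 = w0.2 + M * t2 := by rw [ht2]; field_simp; ring
      rw [this, e2]; ring
    rw [e3, abs_mul, abs_of_pos hMR]
    have h4 : |((⌊x⌋ : ℝ) - x) * v.2 + ((⌊y⌋ : ℝ) - y) * w.2| ≤ 2 * T := by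
      refine (abs_add_le _ _).trans ?_
      rw [abs_mul, abs_mul]
      have h5 : |(⌊x⌋ : ℝ) - x| * |(v.2 : ℝ)| ≤ 1 * T :=
        mul_le_mul bx hv2 (abs_nonneg _) zero_le_one
      have h6 : |(⌊y⌋ : ℝ) - y| * |(w.2 : ℝ)| ≤ 1 * T :=
        mul_le_mul by' hw2 (abs_nonneg _) zero_le_one
      linarith
    calc (M : ℝ) * |((⌊x⌋ : ℝ) - x) * v.2 + ((⌊y⌋ : ℝ) - y) * w.2| ≤ M * (2 * T) :=
          mul_le_mul_of_nonneg_left h4 hMR.le
      _ = _ := by ring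

end Pool.Agent.H70SH
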